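import Pool.Agent.Helper57.TX.Defs
import Pool.Agent.Helper93.UX.Defs
import Mathlib.Analysis.SpecialFunctions.Stirling

/-!
# TX A13: the sharp upper bound, from the tail bound (A12)

`M = a V`, `V' = (1 - C a) V`, `x = π² V'²/(2 (log c + C))`, `k = ⌊x⌋`, `k! ≤ e √k (k/e)^k`.
-/

set_option autoImplicit false
open MeasureTheory Set Filter Topology
open Pool.Agent.Helper57.Zeta Pool.Agent.Helper57.LH Pool.Agent.Helper57.ED
open Pool.Agent.Helper93.UG (zc sp)

namespace Pool.Agent.Helper66.TX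

/-- A12 -/
def Master : Prop := ∃ C κ M₀ T₀ : ℝ, 0 < C ∧ 0 < κ ∧ 1 ≤ M₀ ∧ ∀ T c M : ℝ, T₀ ≤ T → 1 ≤ c →
    c * Real.log (Real.log T) ≤ Real.log T → M₀ ≤ M → M ≤ Real.log T →
    ∀ (V : ℝ) (k : ℕ), 0 < V → (k : ℝ) ≤ M / 8 →
    volume {t : ℝ | T / 2 ≤ t ∧ t ≤ 3 * T ∧ V + C * M ≤ |(zc (Ico t (t + c * sp T)) : ℝ) - c|} ≤
      ENNReal.ofReal ((C * Real.exp (-(κ * M)) +
        C * (k.factorial * (2 / Real.pi ^ 2 * (Real.log c + C) / V ^ 2) ^ k)) * T)

lemma fac_le {k : ℕ} (hk : 1 ≤ k) : (k.factorial : ℝ) ≤ Real.exp 1 * √k * (k / Real.exp 1) ^ k := by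
  have h1 := Stirling.stirlingSeq'_antitone (Nat.zero_le (k - 1))
  simp only [Function.comp, Nat.succ_eq_add_one, Nat.sub_add_cancel hk, zero_add] at h1
  rw [Stirling.stirlingSeq_one] at h1
  unfold Stirling.stirlingSeq at h1
  have hk0 : (0:ℝ) < k := by exact_mod_cast hk
  have h2 : 0 < √(2 * (k:ℝ)) * (k / Real.exp 1) ^ k := by positivity
  rw [div_le_iff₀ h2] at h1
  refine h1.trans (le_of_eq ?_)
  rw [Real.sqrt_mul (by norm_num)]
  have : √(2:ℝ) ≠ 0 := by positivity
  field_simp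

/-- `k! x^(-k) ≤ (e²/θ) e^(-(1-θ) x)` for `k = ⌊x⌋` -/
lemma fac_bd {x θ : ℝ} (hx : 0 < x) (hθ : 0 < θ) (hθ1 : θ ≤ 1) :
    (⌊x⌋₊.factorial : ℝ) * (1 / x) ^ ⌊x⌋₊ ≤ Real.exp 2 / θ * Real.exp (-((1 - θ) * x)) := by
  set k := ⌊x⌋₊ with hk
  have hkx : (k : ℝ) ≤ x := Nat.floor_le hx.le
  have hxk : x < k + 1 := Nat.lt_floor_add_one x
  have hE : 1 + x ≤ 1 / θ * Real.exp (θ * x) := by
    have h1 := Real.add_one_le_exp (θ * x)
    rw [div_mul_eq_mul_div, one_mul, le_div_iff₀ hθ]
    nlinarith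
  have hR : Real.exp 2 / θ * Real.exp (-((1 - θ) * x)) = Real.exp (2 - x) * (1 / θ * Real.exp (θ * x)) := by
    have : Real.exp (2 - x) * (1 / θ * Real.exp (θ * x)) = (Real.exp (2 - x) * Real.exp (θ * x)) / θ := by ring
    rw [this, ← Real.exp_add, div_mul_eq_mul_div, ← Real.exp_add]
    congr 2
    ring
  rw [hR]
  refine le_trans ?_ (mul_le_mul_of_nonneg_left hE (Real.exp_pos _).le)
  rcases Nat.eq_zero_or_pos k with h0 | h0
  · rw [h0]
    simp only [Nat.factorial_zero, Nat.cast_one, pow_zero, mul_one]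
    have hx1 : x < 1 := by rw [h0] at hxk; simpa using hxk
    have h1 : 1 ≤ Real.exp (2 - x) := Real.one_le_exp (by linarith)
    nlinarith
  · have hk0 : (0:ℝ) < k := by exact_mod_cast h0
    have h1 : (1 / x) ^ k ≤ (1 / (k:ℝ)) ^ k := by
      apply pow_le_pow_left₀ (by positivity)
      exact one_div_le_one_div_of_le hk0 hkx
    have h2 := fac_le h0
    have h3 : (k / Real.exp 1) ^ k * (1 / (k:ℝ)) ^ k = Real.exp (-(k:ℝ)) := by
      rw [← mul_pow]
      have : (k:ℝ) / Real.exp 1 * (1 / k) = Real.exp (-1) := by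
        rw [Real.exp_neg]
        field_simp
      rw [this, ← Real.exp_nat_mul]
      congr 1
      ring
    have h4 : √(k:ℝ) ≤ 1 + x := by
      rw [Real.sqrt_le_left (by linarith)]
      nlinarith
    calc (k.factorial : ℝ) * (1 / x) ^ k ≤ (Real.exp 1 * √k * (k / Real.exp 1) ^ k) * (1 / (k:ℝ)) ^ k :=
          mul_le_mul h2 h1 (by positivity) (by positivity)
      _ = Real.exp 1 * Real.exp (-(k:ℝ)) * √k := by rw [mul_assoc, h3]; ring
      _ ≤ Real.exp (2 - x) * (1 + x) := by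
          rw [← Real.exp_add]
          apply mul_le_mul _ h4 (Real.sqrt_nonneg _) (Real.exp_pos _).le
          exact Real.exp_le_exp.2 (by linarith)

theorem tx2_of (hm : Master) : Pool.Agent.Helper93.UX.TX2 := by
  obtain ⟨C, κ, M₀, T₀, hC, hκ, hM₀, hm⟩ := hm
  intro ε hε
  set e : ℝ := min ε 1 with he
  have he0 : 0 < e := lt_min hε one_pos
  have he1 : e ≤ 1 := min_le_right _ _
  have heε : e ≤ ε := min_le_left _ _
  set a : ℝ := e / (40 * C) with ha
  have ha0 : 0 < a := by positivity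
  have hCa : C * a = e / 40 := by rw [ha]; field_simp
  set θ : ℝ := e / 10 with hθ
  have hθ0 : 0 < θ := by positivity
  have hθ1 : θ ≤ 1 := by rw [hθ]; linarith
  set η : ℝ := min (min (a / 40) (κ * a / 5)) (1 / (a + 1)) with hη
  have hη0 : 0 < η := by
    apply lt_min (lt_min (by positivity) (by positivity)) (by positivity)
  have hη1 : η ≤ a / 40 := (min_le_left _ _).trans (min_le_left _ _)
  have hη2 : η ≤ κ * a / 5 := (min_le_left _ _).trans (min_le_right _ _)
  have hη3 : η ≤ 1 / (a + 1) := min_le_right _ _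
  set B : ℝ := 5 / 2 + C + C * (Real.exp 2 / θ) with hB
  have hB1 : 1 < B := by
    have : 0 < C * (Real.exp 2 / θ) := by positivity
    rw [hB]; linarith
  set C' : ℝ := Real.log B + 5 * (M₀ / a) ^ 2 with hC'
  have hlB : 0 < Real.log B := Real.log_pos hB1
  have hpi0 := Real.pi_pos
  have hpi2 : Real.pi ^ 2 ≤ 10 := by nlinarith [Real.pi_lt_d2, Real.pi_gt_three]
  have hpi3 : 9 ≤ Real.pi ^ 2 := by nlinarith [Real.pi_gt_three]
  refine ⟨C', η, 1, Real.exp (20 * C / e + 1), max T₀ (Real.exp (Real.exp 1)), by positivity, hη0, one_pos, ?_⟩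
  intro T hT c V hc hcT hV0 hVη
  have hT1 : T₀ ≤ T := (le_max_left _ _).trans hT
  have hTe : Real.exp (Real.exp 1) ≤ T := (le_max_right _ _).trans hT
  have hTp : 0 < T := (Real.exp_pos _).trans_le hTe
  have hl1 : Real.exp 1 ≤ Real.log T := (Real.le_log_iff_exp_le hTp).2 hTe
  have he2 : (2:ℝ) ≤ Real.exp 1 := by linarith [Real.add_one_le_exp (1:ℝ)]
  have hl0 : 0 < Real.log T := by linarith
  have hll1 : 1 ≤ Real.log (Real.log T) := (Real.le_log_iff_exp_le hl0).2 hl1
  have hcT' : c * Real.log (Real.log T) ≤ Real.log T := by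
    have : c ≤ Real.log T / Real.log (Real.log T) := by simpa using hcT
    rwa [le_div_iff₀ (by linarith)] at this
  set L : ℝ := Real.log c with hL
  have hcp : 0 < c := (Real.exp_pos _).trans_le hc
  have hL1 : 20 * C / e + 1 ≤ L := (Real.le_log_iff_exp_le hcp).2 hc
  have hCe : 0 < 20 * C / e := by positivity
  have hLp : 1 < L := by linarith
  have hc1 : 1 ≤ c := by
    have := Real.add_one_le_exp (20 * C / e + 1)
    linarith
  have hclog : c ≤ Real.log T := by nlinarith
  have hLlog : L ≤ Real.log T := (Real.log_le_sub_one_of_pos hcp).trans (by linarith)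
  -- the size of `V²/L`
  have hVL : V ^ 2 / L ≤ η * V := by
    rw [div_le_iff₀ (by linarith)]
    nlinarith
  have hVL0 : 0 ≤ V ^ 2 / L := by positivity
  -- it suffices
  have hsuff : volume {t : ℝ | T / 2 ≤ t ∧ t ≤ 3 * T ∧ V ≤ |(zc (Ico t (t + c * sp T)) : ℝ) - c|} ≤
      ENNReal.ofReal (Real.exp (C' - (Real.pi ^ 2 / 2 - e) * (V ^ 2 / L)) * T) → 
      volume {t : ℝ | T / 2 ≤ t ∧ t ≤ 3 * T ∧ V ≤ |(zc (Ico t (t + c * sp T)) : ℝ) - c|} ≤
      ENNReal.ofReal (Real.exp (C' - (Real.pi ^ 2 / 2 - ε) * V ^ 2 / L) * T) := by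
    intro h
    refine h.trans (ENNReal.ofReal_le_ofReal ?_)
    apply mul_le_mul_of_nonneg_right _ hTp.le
    apply Real.exp_le_exp.2
    have : (Real.pi ^ 2 / 2 - ε) * V ^ 2 / L = (Real.pi ^ 2 / 2 - ε) * (V ^ 2 / L) := by ring
    rw [this]
    nlinarith
  apply hsuff
  by_cases hVM : a * V < M₀
  · -- small `V`
    have h1 : V < M₀ / a := by
      rw [lt_div_iff₀ ha0]
      linarith
    have h2 : V ^ 2 / L ≤ (M₀ / a) ^ 2 := by
      rw [div_le_iff₀ (by linarith)]
      have : V ^ 2 ≤ (M₀ / a) ^ 2 := pow_le_pow_left₀ hV0 h1.le 2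
      nlinarith
    have h3 : volume {t : ℝ | T / 2 ≤ t ∧ t ≤ 3 * T ∧ V ≤ |(zc (Ico t (t + c * sp T)) : ℝ) - c|} ≤
        ENNReal.ofReal (5 / 2 * T) := by
      refine (measure_mono (t := Icc (T / 2) (3 * T)) (fun t ht => ⟨ht.1, ht.2.1⟩)).trans ?_
      rw [Real.volume_Icc]
      apply ENNReal.ofReal_le_ofReal
      linarith
    refine h3.trans (ENNReal.ofReal_le_ofReal ?_)
    apply mul_le_mul_of_nonneg_right _ hTp.le
    have h4 : Real.log B ≤ C' - (Real.pi ^ 2 / 2 - e) * (V ^ 2 / L) := by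
      rw [hC']
      nlinarith
    have h5 : B ≤ Real.exp (C' - (Real.pi ^ 2 / 2 - e) * (V ^ 2 / L)) := by
      rw [← Real.log_le_iff_le_exp (by linarith)]
      exact h4
    have h6 : 5 / 2 ≤ B := by
      have : 0 < C * (Real.exp 2 / θ) := by positivity
      rw [hB]; linarith
    linarith
  · push Not at hVM
    have hVp : 0 < V := by
      by_contra h
      push Not at h
      nlinarith
    set M : ℝ := a * V with hM
    set W : ℝ := (1 - e / 40) * V with hW
    have hWp : 0 < W := by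
      rw [hW]
      apply mul_pos _ hVp
      linarith
    have hWM : W + C * M = V := by
      rw [hW, hM, ← mul_assoc, hCa]
      ring
    have hMlog : M ≤ Real.log T := by
      have h1 : M ≤ a * (η * L) := mul_le_mul_of_nonneg_left hVη ha0.le
      have h2 : a * η ≤ 1 := by
        have h3 : a * η ≤ a * (1 / (a + 1)) := mul_le_mul_of_nonneg_left hη3 ha0.le
        have h4 : a * (1 / (a + 1)) ≤ 1 := by
          rw [mul_one_div, div_le_one (by linarith)]
          linarith
        linarith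
      have h3 : a * (η * L) ≤ 1 * L := by
        rw [← mul_assoc]
        exact mul_le_mul_of_nonneg_right h2 (by linarith)
      linarith
    set x : ℝ := Real.pi ^ 2 * W ^ 2 / (2 * (L + C)) with hx
    have hxp : 0 < x := by positivity
    have hx1 : 2 / Real.pi ^ 2 * (L + C) / W ^ 2 = 1 / x := by
      rw [hx]
      field_simp
    have hxu : x ≤ M / 8 := by
      have h1 : x ≤ 5 * (V ^ 2 / L) := by
        have hWV : W ^ 2 ≤ V ^ 2 := by
          apply pow_le_pow_left₀ hWp.le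
          rw [hW]
          nlinarith
        rw [hx, div_le_iff₀ (by positivity)]
        have h2 : 5 * (V ^ 2 / L) * (2 * (L + C)) = 10 * V ^ 2 * ((L + C) / L) := by
          field_simp
          ring
        rw [h2]
        have h3 : 1 ≤ (L + C) / L := by
          rw [le_div_iff₀ (by linarith)]
          linarith
        have h4 : Real.pi ^ 2 * W ^ 2 ≤ 10 * V ^ 2 := by
          apply mul_le_mul (by linarith) hWV (by positivity) (by norm_num)
        have h5 : 10 * V ^ 2 * 1 ≤ 10 * V ^ 2 * ((L + C) / L) := mul_le_mul_of_nonneg_left h3 (by positivity)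
        linarith
      have h6 : 5 * (V ^ 2 / L) ≤ 5 * (η * V) := by linarith
      have h7 : 5 * (η * V) ≤ 5 * (a / 40 * V) := by
        apply mul_le_mul_of_nonneg_left _ (by norm_num)
        exact mul_le_mul_of_nonneg_right hη1 hV0
      rw [hM]
      linarith
    have hkM : ((⌊x⌋₊ : ℕ) : ℝ) ≤ M / 8 := (Nat.floor_le hxp.le).trans hxu
    have hb := hm T c M hT1 hc1 hcT' hVM hMlog W ⌊x⌋₊ hWp hkM
    rw [hWM, ← hL, hx1] at hb
    refine hb.trans (ENNReal.ofReal_le_ofReal ?_)
    apply mul_le_mul_of_nonneg_right _ hTp.le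
    have hf := fac_bd hxp hθ0 hθ1
    -- exponents
    have hexp1 : (Real.pi ^ 2 / 2 - e) * (V ^ 2 / L) ≤ κ * M := by
      have h1 : (Real.pi ^ 2 / 2 - e) * (V ^ 2 / L) ≤ 5 * (V ^ 2 / L) := by
        apply mul_le_mul_of_nonneg_right _ hVL0
        linarith
      have h2 : 5 * (η * V) ≤ 5 * (κ * a / 5 * V) := by
        apply mul_le_mul_of_nonneg_left _ (by norm_num)
        exact mul_le_mul_of_nonneg_right hη2 hV0
      have h3 : 5 * (κ * a / 5 * V) = κ * M := by
        rw [hM]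
        ring
      linarith
    have hexp2 : (Real.pi ^ 2 / 2 - e) * (V ^ 2 / L) ≤ (1 - θ) * x := by
      have h1 : (Real.pi ^ 2 / 2 - e / 2) * (V ^ 2 / L) ≤ x := by
        have h2 : x = Real.pi ^ 2 / 2 * (1 - e / 40) ^ 2 * (L / (L + C)) * (V ^ 2 / L) := by
          rw [hx, hW]
          field_simp
        rw [h2]
        apply mul_le_mul_of_nonneg_right _ hVL0
        have h3 : 1 - C / L ≤ L / (L + C) := by
          rw [le_div_iff₀ (by linarith)]
          have h4 : (1 - C / L) * (L + C) = L - C ^ 2 / L := by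
            field_simp
            ring
          rw [h4]
          have : 0 ≤ C ^ 2 / L := by positivity
          linarith
        have h5 : C / L ≤ e / 20 := by
          rw [div_le_div_iff₀ (by linarith) (by norm_num)]
          have h6 : 20 * C / e ≤ L := by linarith
          rw [div_le_iff₀ he0] at h6
          linarith
        have h7 : 1 - e / 20 ≤ (1 - e / 40) ^ 2 := by nlinarith [sq_nonneg e]
        have h8 : 1 - e / 20 ≤ L / (L + C) := by linarith
        have h9 : (1 - e / 20) * (1 - e / 20) ≤ (1 - e / 40) ^ 2 * (L / (L + C)) :=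
          mul_le_mul h7 h8 (by linarith) (by positivity)
        have h10 : 1 - e / 10 ≤ (1 - e / 20) * (1 - e / 20) := by nlinarith [sq_nonneg e]
        have h11 : Real.pi ^ 2 / 2 * (1 - e / 10) ≤ Real.pi ^ 2 / 2 * ((1 - e / 40) ^ 2 * (L / (L + C))) :=
          mul_le_mul_of_nonneg_left (h10.trans h9) (by positivity)
        have h12 : Real.pi ^ 2 / 2 - e / 2 ≤ Real.pi ^ 2 / 2 * (1 - e / 10) := by nlinarith
        calc Real.pi ^ 2 / 2 - e / 2 ≤ Real.pi ^ 2 / 2 * ((1 - e / 40) ^ 2 * (L / (L + C))) := h12.trans h11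
          _ = _ := by ring
      have h13 : (1 - θ) * ((Real.pi ^ 2 / 2 - e / 2) * (V ^ 2 / L)) ≤ (1 - θ) * x :=
        mul_le_mul_of_nonneg_left h1 (by linarith)
      refine le_trans ?_ h13
      have h14 : (Real.pi ^ 2 / 2 - e) ≤ (1 - θ) * (Real.pi ^ 2 / 2 - e / 2) := by
        rw [hθ]
        nlinarith [mul_pos he0 he0]
      calc (Real.pi ^ 2 / 2 - e) * (V ^ 2 / L) ≤ ((1 - θ) * (Real.pi ^ 2 / 2 - e / 2)) * (V ^ 2 / L) :=
            mul_le_mul_of_nonneg_right h14 hVL0
        _ = _ := by ring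
    set G : ℝ := Real.exp (-((Real.pi ^ 2 / 2 - e) * (V ^ 2 / L))) with hG
    have hG1 : Real.exp (-(κ * M)) ≤ G := Real.exp_le_exp.2 (by linarith)
    have hG2 : Real.exp (-((1 - θ) * x)) ≤ G := Real.exp_le_exp.2 (by linarith)
    have hR : B * G ≤ Real.exp (C' - (Real.pi ^ 2 / 2 - e) * (V ^ 2 / L)) := by
      have : Real.exp (C' - (Real.pi ^ 2 / 2 - e) * (V ^ 2 / L)) = Real.exp C' * G := by
        rw [hG, ← Real.exp_add]
        congr 1
      rw [this]
      apply mul_le_mul_of_nonneg_right _ (Real.exp_pos _).le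
      rw [← Real.log_le_iff_le_exp (by linarith), hC']
      have : 0 ≤ 5 * (M₀ / a) ^ 2 := by positivity
      linarith
    refine le_trans ?_ hR
    have hGp : 0 < G := Real.exp_pos _
    have h20 : C * (↑(⌊x⌋₊.factorial) * (1 / x) ^ ⌊x⌋₊) ≤ C * (Real.exp 2 / θ * G) := by
      apply mul_le_mul_of_nonneg_left _ hC.le
      refine hf.trans ?_
      exact mul_le_mul_of_nonneg_left hG2 (by positivity)
    have h21 : C * Real.exp (-(κ * M)) ≤ C * G := mul_le_mul_of_nonneg_left hG1 hC.le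
    calc C * Real.exp (-(κ * M)) + C * (↑(⌊x⌋₊.factorial) * (1 / x) ^ ⌊x⌋₊) ≤ C * G + C * (Real.exp 2 / θ * G) :=
          add_le_add h21 h20
      _ ≤ B * G := by
          rw [hB]
          nlinarith

end Pool.Agent.Helper66.TX
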